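import Mathlib

/-!
# The bound for the integral over all positions: numerical part
-/

set_option autoImplicit false

open MeasureTheory Set Filter
open scoped ENNReal

namespace Pool.Agent.H55.TM.BI

theorem pw_nat {y : ℝ} (hy : 0 ≤ y) (r : ℝ) (m : ℕ) (h : r * 12 = m) : (y ^ r) ^ 12 = y ^ m := by
  rw [← Real.rpow_natCast (y ^ r) 12, ← Real.rpow_mul hy]
  have : r * ((12 : ℕ) : ℝ) = (m : ℝ) := by
    rw [← h]
    norm_num
  rw [this, Real.rpow_natCast]

/-- the numerical part -/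
theorem num {n : ℕ} {κ X N T d a τ : ℝ} (hκ0 : 0 < κ) (hκ1 : κ ≤ 1 / 12) (hX : 1 ≤ X) (hN : 1 ≤ N)
    (hT : 1 ≤ T) (hd : 1 ≤ d) (hX2 : X ^ 2 ≤ 6 ^ n * (d * N * T)) (hτ : τ ≤ n)
    (ha : a = Real.exp (-τ) / N) (σ : ℝ) (hσ : σ = if 0 ≤ Real.log X + τ then κ else 1) :
    X ^ σ * Real.exp (τ * (1 / 2 + σ)) * ((1 + a) ^ (1 / 2 : ℝ) *
      (1 + a / T ^ (1 / 2 : ℝ)) ^ (11 / 12 : ℝ)) ≤
    (Real.exp n + 1) * 6 ^ n * d * (2 * X ^ κ * Real.exp (κ * τ)) := by
  have hX0 : 0 < X := by linarith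
  have hN0 : 0 < N := by linarith
  have hT0 : 0 < T := by linarith
  have hd0 : 0 < d := by linarith
  have h6n : (1 : ℝ) ≤ 6 ^ n := one_le_pow₀ (by norm_num)
  have hn0 : (0 : ℝ) ≤ n := Nat.cast_nonneg n
  set x : ℝ := Real.log X with hx
  have hx0 : 0 ≤ x := Real.log_nonneg hX
  have hXe : Real.exp x = X := Real.exp_log hX0
  have ha0 : 0 ≤ a := by rw [ha]; positivity
  have hXσ : ∀ r : ℝ, X ^ r = Real.exp (r * x) := by
    intro r
    rw [Real.rpow_def_of_pos hX0, mul_comm]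
  -- first factor
  have h1 : Real.exp (τ / 2) * (1 + a) ^ (1 / 2 : ℝ) ≤ Real.exp n + 1 := by
    have e1 : Real.exp (τ / 2) = Real.exp τ ^ (1 / 2 : ℝ) := by
      rw [← Real.exp_mul]
      congr 1
      ring
    rw [e1, ← Real.mul_rpow (Real.exp_pos _).le (by linarith)]
    have e2 : Real.exp τ * (1 + a) ≤ Real.exp n + 1 := by
      have e3 : Real.exp τ * a = 1 / N := by
        rw [ha, Real.exp_neg]
        field_simp
      have e4 : 1 / N ≤ 1 := by
        rw [div_le_one hN0]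
        exact hN
      have e5 := Real.exp_le_exp.2 hτ
      calc Real.exp τ * (1 + a) = Real.exp τ + Real.exp τ * a := by ring
        _ ≤ Real.exp n + 1 := by rw [e3]; linarith
    have e6 : (1 : ℝ) ≤ Real.exp n + 1 := by
      have := Real.exp_pos (n : ℝ)
      linarith
    calc (Real.exp τ * (1 + a)) ^ (1 / 2 : ℝ) ≤ (Real.exp n + 1) ^ (1 / 2 : ℝ) :=
          Real.rpow_le_rpow (by positivity) e2 (by norm_num)
      _ ≤ (Real.exp n + 1) ^ (1 : ℝ) := Real.rpow_le_rpow_of_exponent_le e6 (by norm_num)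
      _ = _ := Real.rpow_one _
  -- second factor
  set R : ℝ := T ^ (1 / 2 : ℝ) with hR
  have hR0 : 0 < R := by rw [hR]; positivity
  have hR2 : R ^ 2 = T := by
    rw [hR, ← Real.rpow_natCast, ← Real.rpow_mul hT0.le]
    norm_num
  have hXle : X ≤ 6 ^ n * d * (N * R) := by
    refine le_of_sq_le_sq ?_ (by positivity)
    refine hX2.trans ?_
    have e : (6 ^ n * d * (N * R)) ^ 2 = 6 ^ n * (d * N * T) * (6 ^ n * d * N) := by
      calc (6 ^ n * d * (N * R)) ^ 2 = 6 ^ n * 6 ^ n * (d ^ 2 * N ^ 2 * R ^ 2) := by ring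
        _ = _ := by
            rw [hR2]
            ring
    rw [e]
    refine le_mul_of_one_le_right (by positivity) ?_
    exact one_le_mul_of_one_le_of_one_le (one_le_mul_of_one_le_of_one_le h6n hd) hN
  have h2a : a / R ≤ 6 ^ n * d * Real.exp (-(x + τ)) := by
    have e1 : a / R = Real.exp (-τ) / (N * R) := by
      rw [ha, div_div]
    have e2 : Real.exp (-(x + τ)) = Real.exp (-τ) / X := by
      rw [neg_add, Real.exp_add, Real.exp_neg x, hXe]
      ring
    rw [e1, e2, div_le_iff₀ (by positivity)]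
    have e3 : 6 ^ n * d * (Real.exp (-τ) / X) * (N * R) =
        Real.exp (-τ) * ((6 ^ n * d * (N * R)) / X) := by ring
    rw [e3]
    refine le_mul_of_one_le_right (Real.exp_pos _).le ?_
    rw [one_le_div hX0]
    exact hXle
  have h2b : 1 + a / R ≤ 6 ^ n * d * (1 + Real.exp (-(x + τ))) := by
    have e1 : 1 ≤ 6 ^ n * d := one_le_mul_of_one_le_of_one_le h6n hd
    rw [mul_add, mul_one]
    linarith
  have h2 : (1 + a / R) ^ (11 / 12 : ℝ) ≤
      6 ^ n * d * (1 + Real.exp (-(x + τ))) ^ (11 / 12 : ℝ) := by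
    refine (Real.rpow_le_rpow (by positivity) h2b (by norm_num)).trans ?_
    rw [Real.mul_rpow (by positivity) (by positivity)]
    have e1 : (6 ^ n * d) ^ (11 / 12 : ℝ) ≤ 6 ^ n * d := by
      calc (6 ^ n * d) ^ (11 / 12 : ℝ) ≤ (6 ^ n * d) ^ (1 : ℝ) :=
            Real.rpow_le_rpow_of_exponent_le (one_le_mul_of_one_le_of_one_le h6n hd) (by norm_num)
        _ = 6 ^ n * d := Real.rpow_one _
    gcongr
  -- third factor
  have h3 : Real.exp (σ * (x + τ)) * (1 + Real.exp (-(x + τ))) ^ (11 / 12 : ℝ) ≤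
      2 * Real.exp (κ * x) * Real.exp (κ * τ) := by
    have e0 : 2 * Real.exp (κ * x) * Real.exp (κ * τ) = 2 * Real.exp (κ * (x + τ)) := by
      rw [mul_assoc, ← Real.exp_add]
      congr 2
      ring
    rw [e0]
    by_cases h : 0 ≤ x + τ
    · rw [if_pos h] at hσ
      rw [hσ]
      have e1 : (1 + Real.exp (-(x + τ))) ^ (11 / 12 : ℝ) ≤ 2 := by
        have e2 : Real.exp (-(x + τ)) ≤ 1 := Real.exp_le_one_iff.2 (by linarith)
        calc (1 + Real.exp (-(x + τ))) ^ (11 / 12 : ℝ) ≤ (2 : ℝ) ^ (11 / 12 : ℝ) :=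
              Real.rpow_le_rpow (by positivity) (by linarith) (by norm_num)
          _ ≤ (2 : ℝ) ^ (1 : ℝ) := Real.rpow_le_rpow_of_exponent_le (by norm_num) (by norm_num)
          _ = 2 := Real.rpow_one _
      rw [mul_comm 2]
      exact mul_le_mul_of_nonneg_left e1 (Real.exp_pos _).le
    · rw [if_neg h] at hσ
      rw [hσ, one_mul]
      push Not at h
      set p : ℝ := x + τ with hp
      have e1 : (1 + Real.exp (-p)) ^ (11 / 12 : ℝ) ≤ 2 * Real.exp (-(11 / 12) * p) := by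
        have e2 : 1 ≤ Real.exp (-p) := Real.one_le_exp (by linarith)
        calc (1 + Real.exp (-p)) ^ (11 / 12 : ℝ) ≤ (2 * Real.exp (-p)) ^ (11 / 12 : ℝ) :=
              Real.rpow_le_rpow (by positivity) (by linarith) (by norm_num)
          _ = (2 : ℝ) ^ (11 / 12 : ℝ) * Real.exp (-(11 / 12) * p) := by
              rw [Real.mul_rpow (by norm_num) (Real.exp_pos _).le, ← Real.exp_mul]
              congr 2
              ring
          _ ≤ 2 * Real.exp (-(11 / 12) * p) := by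
              have e3 : (2 : ℝ) ^ (11 / 12 : ℝ) ≤ 2 := by
                calc (2 : ℝ) ^ (11 / 12 : ℝ) ≤ (2 : ℝ) ^ (1 : ℝ) :=
                      Real.rpow_le_rpow_of_exponent_le (by norm_num) (by norm_num)
                  _ = 2 := Real.rpow_one _
              gcongr
      calc Real.exp p * (1 + Real.exp (-p)) ^ (11 / 12 : ℝ)
          ≤ Real.exp p * (2 * Real.exp (-(11 / 12) * p)) :=
            mul_le_mul_of_nonneg_left e1 (Real.exp_pos _).le
        _ = 2 * Real.exp (p / 12) := by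
            have : Real.exp p * Real.exp (-(11 / 12) * p) = Real.exp (p / 12) := by
              rw [← Real.exp_add]
              congr 1
              ring
            linear_combination 2 * this
        _ ≤ 2 * Real.exp (κ * p) := by
            refine mul_le_mul_of_nonneg_left ?_ (by norm_num)
            apply Real.exp_le_exp.2
            have e4 := mul_le_mul_of_nonpos_right hκ1 h.le
            linarith
  have hfin : X ^ σ * Real.exp (τ * (1 / 2 + σ)) =
      Real.exp (σ * (x + τ)) * Real.exp (τ / 2) := by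
    rw [hXσ, ← Real.exp_add, ← Real.exp_add]
    congr 1
    ring
  rw [hfin, hXσ]
  calc Real.exp (σ * (x + τ)) * Real.exp (τ / 2) * ((1 + a) ^ (1 / 2 : ℝ) *
        (1 + a / R) ^ (11 / 12 : ℝ))
      ≤ Real.exp (σ * (x + τ)) * Real.exp (τ / 2) * ((1 + a) ^ (1 / 2 : ℝ) *
        (6 ^ n * d * (1 + Real.exp (-(x + τ))) ^ (11 / 12 : ℝ))) := by gcongr
    _ = (Real.exp (τ / 2) * (1 + a) ^ (1 / 2 : ℝ)) * (6 ^ n * d) *
        (Real.exp (σ * (x + τ)) * (1 + Real.exp (-(x + τ))) ^ (11 / 12 : ℝ)) := by ring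
    _ ≤ (Real.exp n + 1) * (6 ^ n * d) *
        (2 * Real.exp (κ * x) * Real.exp (κ * τ)) := by
        gcongr
    _ = _ := by ring

/-- the final comparison -/
theorem fin {n : ℕ} {ε κ B₀ X N T d D : ℝ} (hε0 : 0 < ε) (hε1 : ε ≤ 1) (hκ0 : 0 < κ)
    (hκ : κ ≤ ε / 24) (hB₀ : 0 ≤ B₀) (hX : 1 ≤ X) (hN : 1 ≤ N) (hT : 1 ≤ T) (hd : 1 ≤ d)
    (hD : 1 ≤ D) (hX2 : X ^ 2 ≤ 6 ^ n * (d * N * T)) :
    N ^ 12 * (D * d) ^ B₀ * T ^ (2 + ε / 2) * d ^ 12 * (X ^ κ) ^ 12 ≤
      6 ^ n * ((D * d * N) ^ (B₀ + 25) * T ^ (2 + ε)) := by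
  have hX0 : 0 < X := by linarith
  have hN0 : 0 < N := by linarith
  have hT0 : 0 < T := by linarith
  have hd0 : 0 < d := by linarith
  have hD0 : 0 < D := by linarith
  have h6n : (1 : ℝ) ≤ 6 ^ n := one_le_pow₀ (by norm_num)
  set P : ℝ := D * d * N with hP
  have hDd : 1 ≤ D * d := one_le_mul_of_one_le_of_one_le hD hd
  have hP1 : 1 ≤ P := one_le_mul_of_one_le_of_one_le hDd hN
  have hP0 : 0 < P := by linarith
  have a1 : N ≤ P := le_mul_of_one_le_left hN0.le hDd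
  have a2 : D * d ≤ P := le_mul_of_one_le_right (by positivity) hN
  have a3 : d ≤ P := (le_mul_of_one_le_left hd0.le hD).trans a2
  have a4 : d * N ≤ P := by
    rw [hP, mul_assoc]
    exact le_mul_of_one_le_left (by positivity) hD
  have hXk : (X ^ κ) ^ 12 ≤ 6 ^ n * P * T ^ (ε / 4) := by
    have e1 : (X ^ κ) ^ 12 = (X ^ 2) ^ (6 * κ) := by
      rw [← Real.rpow_natCast (X ^ κ) 12, ← Real.rpow_mul hX0.le, ← Real.rpow_natCast X 2,
        ← Real.rpow_mul hX0.le]
      congr 1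
      push_cast
      ring
    rw [e1]
    have h6κ : 6 * κ ≤ 1 := by linarith
    have h6κ0 : 0 ≤ 6 * κ := by linarith
    have hone : ∀ y : ℝ, 1 ≤ y → y ^ (6 * κ) ≤ y := fun y hy => by
      calc y ^ (6 * κ) ≤ y ^ (1 : ℝ) := Real.rpow_le_rpow_of_exponent_le hy h6κ
        _ = y := Real.rpow_one _
    calc (X ^ 2) ^ (6 * κ) ≤ (6 ^ n * (d * N * T)) ^ (6 * κ) :=
          Real.rpow_le_rpow (by positivity) hX2 h6κ0
      _ = (6 ^ n) ^ (6 * κ) * (d * N) ^ (6 * κ) * T ^ (6 * κ) := by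
          rw [Real.mul_rpow (by positivity) (by positivity),
            Real.mul_rpow (by positivity) (by positivity)]
          ring
      _ ≤ 6 ^ n * P * T ^ (ε / 4) := by
          have b1 := hone _ h6n
          have b2 : (d * N) ^ (6 * κ) ≤ P :=
            (hone _ (one_le_mul_of_one_le_of_one_le hd hN)).trans a4
          have b3 : T ^ (6 * κ) ≤ T ^ (ε / 4) :=
            Real.rpow_le_rpow_of_exponent_le hT (by linarith)
          gcongr
  have hT3 : T ^ (2 + ε / 2) * T ^ (ε / 4) ≤ T ^ (2 + ε) := by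
    rw [← Real.rpow_add hT0]
    exact Real.rpow_le_rpow_of_exponent_le hT (by linarith)
  have hPP : P ^ (B₀ + 25) = P ^ 12 * P ^ B₀ * P ^ 12 * P := by
    have : B₀ + 25 = B₀ + ((25 : ℕ) : ℝ) := by norm_num
    rw [this, Real.rpow_add hP0, Real.rpow_natCast]
    ring
  rw [hPP]
  calc N ^ 12 * (D * d) ^ B₀ * T ^ (2 + ε / 2) * d ^ 12 * (X ^ κ) ^ 12
      ≤ P ^ 12 * P ^ B₀ * T ^ (2 + ε / 2) * P ^ 12 * (6 ^ n * P * T ^ (ε / 4)) := by
        gcongr
    _ = 6 ^ n * (P ^ 12 * P ^ B₀ * P ^ 12 * P * (T ^ (2 + ε / 2) * T ^ (ε / 4))) := by ring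
    _ ≤ _ := by gcongr

end Pool.Agent.H55.TM.BI
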