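import Pool.Agent.H23.LB.Targets
import Pool.Agent.H25.HK.Targets
import Pool.Agent.H27.TM.TargetsA
import Pool.Agent.H90.SWL.BIa
import Pool.Agent.H55.TM.BIn

/-!
# The bound for the integral over all positions (twelfth moment)
-/

set_option autoImplicit false

open NumberField NumberField.InfinitePlace NumberField.Units
  NumberField.Units.dirichletUnitTheorem MeasureTheory Set Filter Complex
open scoped nonZeroDivisors ENNReal

namespace Pool.Agent.H55.TM

open Pool.Agent.H25.HK Pool.Agent.H23.LB Pool.Agent.H23.LC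
open Pool.Agent.H28.RC (Rep ft idl)
open Pool.Agent.H29.DW (dg Rl lf wv Pos Wg cpar Ci om zs rv Wt)
open Pool.Agent.H31.SW
open Pool.Agent.H27.TM (Cls Spc M_RT M_JN M_BI)
open Pool.Agent.H90.SWL.BI (pz_Pf ps_Pf one_le_PP lint_exp)
open Pool.Agent.H55.TM.BI

section

variable {K : Type} [Field K] [NumberField K]

open scoped Classical in
/-- the integral of a function of the position in the norm direction -/
private theorem lint_prod {n : ℕ} (hn : Module.finrank ℚ K = n) (hFD : T_FD) (g : ℝ → ℝ≥0∞)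
    (hg : Measurable g) :
    ∫⁻ u in Fd K ×ˢ (univ : Set ℝ) ×ˢ An K, g u.2.1 ≤
      ENNReal.ofReal (regulator K) *
        ((∫⁻ τ, g τ) * ENNReal.ofReal ((2 * Real.pi) ^ n)) := by
  have hm : Measurable (fun u : logSpace K × ℝ × (InfinitePlace K → ℝ) => g u.2.1) :=
    hg.comp (measurable_fst.comp measurable_snd)
  rw [Measure.volume_eq_prod, ← Measure.prod_restrict, Measure.volume_eq_prod,
    ← Measure.prod_restrict, lintegral_prod _ hm.aemeasurable]
  have h2 : ∫⁻ y : ℝ × (InfinitePlace K → ℝ), g y.1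
      ∂((volume.restrict (univ : Set ℝ)).prod (volume.restrict (An K))) =
      (∫⁻ τ, g τ) * volume (An K) := by
    have hm2 : Measurable (fun y : ℝ × (InfinitePlace K → ℝ) => g y.1) := hg.comp measurable_fst
    rw [lintegral_prod _ hm2.aemeasurable, Measure.restrict_univ]
    simp only [lintegral_const, Measure.restrict_apply MeasurableSet.univ, univ_inter]
    rw [lintegral_mul_const _ hg]
  simp only [h2, lintegral_const, Measure.restrict_apply MeasurableSet.univ, univ_inter]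
  rw [mul_comm]
  refine mul_le_mul' ?_ (mul_le_mul' le_rfl (Pool.Agent.H29.DW.An_vol hn))
  have h1 := Pool.Agent.H94.GLA.vol_Fd (K := K)
  rw [← h1]
  exact le_of_eq (ENNReal.ofReal_toReal (hFD K).2.2.2.1.ne).symm

private theorem DD_yM (hYC : T_YC) (M : FI K) (hM : M ≠ 0) (τ : ℝ) (z : logSpace K) :
    DD M (yM K M τ z) = Real.exp (-τ) := by
  have h0 : (0 : ℝ) < (FractionalIdeal.absNorm M : ℝ) := by
    have h1 : FractionalIdeal.absNorm M ≠ 0 := by
      rw [Ne, FractionalIdeal.absNorm_eq_zero_iff]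
      exact hM
    have h2 : 0 ≤ FractionalIdeal.absNorm M := FractionalIdeal.absNorm_nonneg M
    exact_mod_cast lt_of_le_of_ne h2 h1.symm
  unfold DD yM
  rw [(hYC K).1]
  have h1 : -(2 * (τ - Real.log (FractionalIdeal.absNorm M : ℝ))) / 2 =
      -τ + Real.log (FractionalIdeal.absNorm M : ℝ) := by ring
  rw [h1, Real.exp_add, Real.exp_log h0]
  field_simp

end

open scoped Classical in
/-- (BI) the bound for the integral over all positions. -/
theorem pf_BI (hRT : M_RT) (hJN : M_JN) (hIN : Pool.Agent.H31.SW.W_IN)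
    (hMS : Pool.Agent.H31.SW.W_MS) (hRR : Pool.Agent.H23.LB.T_RR)
    (hYC : Pool.Agent.H25.HK.T_YC) (hFD : Pool.Agent.H25.HK.T_FD) : M_BI := by
  intro n hn0
  obtain ⟨B₀, hB₀, hRT⟩ := hRT n hn0
  refine ⟨B₀ + 25, by linarith, ?_⟩
  intro ε κ hε0 hε1 hκ0 hκ
  have hκ12 : κ ≤ 1 / 12 := by linarith
  have hκ1 : κ ≤ 1 := by linarith
  obtain ⟨C1, hC1, hRS1⟩ := hRT (ε / 2) (ps κ pz) (by linarith) (by linarith) (ps_Pf κ)
  obtain ⟨C2, hC2, hRS2⟩ := hRT (ε / 2) (ps 1 pz) (by linarith) (by linarith) (ps_Pf 1)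
  obtain ⟨m, hm⟩ : ∃ m : ℕ, B₀ ≤ ((12 * m : ℕ) : ℝ) := by
    obtain ⟨m, hm⟩ := exists_nat_ge B₀
    exact ⟨m, hm.trans (by push_cast; nlinarith [(Nat.cast_nonneg m : (0 : ℝ) ≤ m)])⟩
  obtain ⟨I0, hI0⟩ : ∃ I0 : ℝ≥0∞, I0 = ∫⁻ w : ℝ, ENNReal.ofReal (Real.exp (-w ^ 2 / 4) *
    (4 + 2 * |w|) ^ m) := ⟨_, rfl⟩
  have hI0fin : I0 < ⊤ := by
    rw [hI0]
    exact Pool.Agent.H29.DW.gauss_poly m
  refine ⟨(C1 + C2) * ((Real.exp n + 1) * 6 ^ n * 2) ^ 12 * I0.toReal ^ 12 *
    (Real.exp (κ * n) / κ) ^ 12 * ((2 * Real.pi) ^ n) ^ 12 * 6 ^ n, by positivity, ?_⟩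
  intro K _ _ hn ι _ M hM f τ A J c X B D E v cc s hf hτ1 hcls hspc hD hX hX2 hB hv hE hper hbd
  have hX0 : 0 < X := by linarith
  have hNf : 1 ≤ Nf K f := by
    unfold Nf
    have h : Ideal.absNorm f ≠ 0 := fun h => hf (Ideal.absNorm_eq_zero_iff.1 h)
    exact_mod_cast Nat.one_le_iff_ne_zero.2 h
  have hNf0 : 0 < Nf K f := by linarith
  have hd : 1 ≤ dK K := by
    unfold dK
    have h : (1 : ℤ) ≤ |discr K| := Int.one_le_abs (discr_ne_zero K)
    have h2 : ((1 : ℤ) : ℝ) ≤ ((|discr K| : ℤ) : ℝ) := by exact_mod_cast h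
    simpa using h2
  have hd0 : 0 < dK K := by linarith
  have hD0 : 0 < D := by linarith
  have hreg : 0 < regulator K := regulator_pos K
  obtain ⟨T, hT⟩ : ∃ T : ℝ, T = PP τ := ⟨_, rfl⟩
  have hT1 : 1 ≤ T := by
    rw [hT]
    exact one_le_PP hτ1
  have hT0 : 0 < T := by linarith
  rw [← hT] at hX2 ⊢
  obtain ⟨Q, hQ⟩ : ∃ Q : ℝ, Q = ((C1 + C2) * ((E * Nf K f) ^ 12 * (D * dK K) ^ B₀ *
    T ^ (2 + ε / 2))) ^ (1 / 12 : ℝ) := ⟨_, rfl⟩
  have hQ0 : 0 ≤ Q := by rw [hQ]; positivity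
  have hQ12 : Q ^ 12 = (C1 + C2) * ((E * Nf K f) ^ 12 * (D * dK K) ^ B₀ * T ^ (2 + ε / 2)) := by
    rw [hQ, pw_nat (by positivity) _ 1 (by norm_num), pow_one]
  obtain ⟨W, hW⟩ : ∃ W : ℝ, W = B * Q * ((Real.exp n + 1) * 6 ^ n * dK K * (2 * X ^ κ)) *
    I0.toReal := ⟨_, rfl⟩
  have hW0 : 0 ≤ W := by
    rw [hW]
    positivity
  -- the pointwise bound
  have hpt : ∀ (i : ι) (u : logSpace K × ℝ × (InfinitePlace K → ℝ)),
      ∑ a ∈ J, (ENNReal.ofReal ‖∑' x : {x : K // x ∈ M i ∧ x ≠ 0}, cc a i x *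
        v a (Ideal.absNorm (idl K (M i) x)) *
          pF (fun v => GG (pz (rv v)) (c a v)) (yM K (M i) u.2.1 (zs s u.1))
            (om s u.2.2) x‖) ^ 12 ≤
      ((Iic (n : ℝ)).indicator (fun τ => ENNReal.ofReal (W * Real.exp (κ * τ))) u.2.1) ^ 12 := by
    rintro i ⟨z, t, θ⟩
    show ∑ a ∈ J, (ENNReal.ofReal ‖∑' x : {x : K // x ∈ M i ∧ x ≠ 0}, cc a i x *
        v a (Ideal.absNorm (idl K (M i) x)) *
          pF (fun v => GG (pz (rv v)) (c a v)) (yM K (M i) t (zs s z)) (om s θ) x‖) ^ 12 ≤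
      ((Iic (n : ℝ)).indicator (fun τ => ENNReal.ofReal (W * Real.exp (κ * τ))) t) ^ 12
    by_cases ht : t ≤ n
    · rw [indicator_of_mem (show t ∈ Iic (n : ℝ) from ht)]
      obtain ⟨σ, hσ⟩ : ∃ σ : ℝ, σ = if 0 ≤ Real.log X + t then κ else 1 := ⟨_, rfl⟩
      have hσ' : σ = κ ∨ σ = 1 := by
        rw [hσ]
        split_ifs
        · exact Or.inl rfl
        · exact Or.inr rfl
      have hIN' : ∀ a ∈ J, _ := fun a ha =>
        hIN K (M i) (c a) pz (cc a i) κ X B (v a) (hM.1 i) pz_Pf ⟨E, hbd a ha i⟩ hκ0 hκ1 hX0 hB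
          (hv a ha) (zs s z) t (om s θ) σ (Pool.Agent.H29.DW.Pos_om s θ) hσ'
      obtain ⟨b, hb⟩ : ∃ b : ℝ, b = Real.exp (-t) / Nf K f := ⟨_, rfl⟩
      have hb0 : 0 ≤ b := by rw [hb]; positivity
      obtain ⟨F, hF⟩ : ∃ F : ℝ, F = Q * ((1 + b) ^ (1 / 2 : ℝ) *
        (1 + b / T ^ (1 / 2 : ℝ)) ^ (11 / 12 : ℝ)) := ⟨_, rfl⟩
      have hF0 : 0 ≤ F := by rw [hF]; positivity
      have hF12 : F ^ 12 = (C1 + C2) * ((E * Nf K f) ^ 12 * (D * dK K) ^ B₀ *
          T ^ (2 + ε / 2)) * ((1 + b) ^ 6 * (1 + b / T ^ (1 / 2 : ℝ)) ^ 11) := by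
        rw [hF, mul_pow, mul_pow, hQ12, pw_nat (by positivity) _ 6 (by norm_num),
          pw_nat (by positivity) _ 11 (by norm_num)]
      -- the sum of the twelfth powers for fixed `w`
      have hin : ∀ w : ℝ, ∑ a ∈ J, ‖∑' x : {x : K // x ∈ M i}, cc a i x *
          pF (fun v => GG (ps σ pz (rv v)) (c a v + (v.mult : ℂ) * w))
            (yM K (M i) t (zs s z)) (om s θ) x‖ ^ 12 ≤ F ^ 12 * ((4 + 2 * |w|) ^ m) ^ 12 := by
        intro w
        have key : ∀ C' : ℝ, 0 ≤ C' → C' ≤ C1 + C2 →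
            C' * ((E * Nf K f) ^ 12 * (D * dK K * (1 + |w|)) ^ B₀ * T ^ (2 + ε / 2) *
              ((1 + b) ^ 6 * (1 + b / T ^ (1 / 2 : ℝ)) ^ 11)) ≤
            F ^ 12 * ((4 + 2 * |w|) ^ m) ^ 12 := by
          intro C' h0 h1
          have hw : (1 + |w|) ^ B₀ ≤ ((4 + 2 * |w|) ^ m) ^ 12 := by
            have hw1 : 1 ≤ 4 + 2 * |w| := by have := abs_nonneg w; linarith
            calc (1 + |w|) ^ B₀ ≤ (4 + 2 * |w|) ^ B₀ :=
                  Real.rpow_le_rpow (by positivity) (by have := abs_nonneg w; linarith) hB₀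
              _ ≤ (4 + 2 * |w|) ^ ((12 * m : ℕ) : ℝ) :=
                  Real.rpow_le_rpow_of_exponent_le hw1 hm
              _ = ((4 + 2 * |w|) ^ m) ^ 12 := by
                  rw [Real.rpow_natCast, ← pow_mul]
                  congr 1
                  ring
          rw [hF12, Real.mul_rpow (by positivity) (by positivity)]
          calc C' * ((E * Nf K f) ^ 12 * ((D * dK K) ^ B₀ * (1 + |w|) ^ B₀) * T ^ (2 + ε / 2) *
                ((1 + b) ^ 6 * (1 + b / T ^ (1 / 2 : ℝ)) ^ 11))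
              ≤ (C1 + C2) * ((E * Nf K f) ^ 12 * ((D * dK K) ^ B₀ * ((4 + 2 * |w|) ^ m) ^ 12) *
                T ^ (2 + ε / 2) * ((1 + b) ^ 6 * (1 + b / T ^ (1 / 2 : ℝ)) ^ 11)) := by
                gcongr
            _ = _ := by ring
        rcases hσ' with h | h
        · have h2 := hRS1 K hn f (M i) (yM K (M i) t (zs s z)) (om s θ) τ A J c
            (fun a => cc a i) D E w hf (hM.1 i) (Pool.Agent.H29.DW.Pos_om s θ) hτ1 hcls hspc hD
            hE (fun a ha => hper a ha i) (fun a ha => hbd a ha i)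
          rw [DD_yM hYC (M i) (hM.1 i), ← hT, ← hb] at h2
          rw [h]
          exact h2.trans (key C1 hC1 (by linarith))
        · have h2 := hRS2 K hn f (M i) (yM K (M i) t (zs s z)) (om s θ) τ A J c
            (fun a => cc a i) D E w hf (hM.1 i) (Pool.Agent.H29.DW.Pos_om s θ) hτ1 hcls hspc hD
            hE (fun a ha => hper a ha i) (fun a ha => hbd a ha i)
          rw [DD_yM hYC (M i) (hM.1 i), ← hT, ← hb] at h2
          rw [h]
          exact h2.trans (key C2 hC2 (by linarith))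
      -- Minkowski
      have hmk := hJN ℝ A volume J (fun a w => ENNReal.ofReal (Real.exp (-w ^ 2 / 4) *
          ‖∑' x : {x : K // x ∈ M i}, cc a i x *
          pF (fun v => GG (ps σ pz (rv v)) (c a v + (v.mult : ℂ) * w))
            (yM K (M i) t (zs s z)) (om s θ) x‖))
        (fun w => ENNReal.ofReal F * ENNReal.ofReal (Real.exp (-w ^ 2 / 4) *
          (4 + 2 * |w|) ^ m)) (by
        intro w
        rw [← ENNReal.ofReal_mul hF0, ← ENNReal.ofReal_pow (by positivity)]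
        have e1 : ∀ a ∈ J, (ENNReal.ofReal (Real.exp (-w ^ 2 / 4) *
            ‖∑' x : {x : K // x ∈ M i}, cc a i x *
            pF (fun v => GG (ps σ pz (rv v)) (c a v + (v.mult : ℂ) * w))
              (yM K (M i) t (zs s z)) (om s θ) x‖)) ^ 12 =
            ENNReal.ofReal (Real.exp (-w ^ 2 / 4) ^ 12 *
            ‖∑' x : {x : K // x ∈ M i}, cc a i x *
            pF (fun v => GG (ps σ pz (rv v)) (c a v + (v.mult : ℂ) * w))
              (yM K (M i) t (zs s z)) (om s θ) x‖ ^ 12) := by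
          intro a _
          rw [← ENNReal.ofReal_pow (by positivity), mul_pow]
        rw [Finset.sum_congr rfl e1, ← ENNReal.ofReal_sum_of_nonneg (fun a _ => by positivity)]
        refine ENNReal.ofReal_le_ofReal ?_
        rw [← Finset.mul_sum]
        calc Real.exp (-w ^ 2 / 4) ^ 12 * _ ≤
              Real.exp (-w ^ 2 / 4) ^ 12 * (F ^ 12 * ((4 + 2 * |w|) ^ m) ^ 12) :=
              mul_le_mul_of_nonneg_left (hin w) (by positivity)
          _ = _ := by ring)
      rw [lintegral_const_mul' _ _ ENNReal.ofReal_ne_top, ← hI0] at hmk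
      have hB1 : 0 ≤ B * X ^ σ * Real.exp (t * (1 / 2 + σ)) := by positivity
      calc ∑ a ∈ J, (ENNReal.ofReal ‖∑' x : {x : K // x ∈ M i ∧ x ≠ 0}, cc a i x *
            v a (Ideal.absNorm (idl K (M i) x)) *
              pF (fun v => GG (pz (rv v)) (c a v)) (yM K (M i) t (zs s z)) (om s θ) x‖) ^ 12
          ≤ ∑ a ∈ J, (ENNReal.ofReal (B * X ^ σ * Real.exp (t * (1 / 2 + σ)))) ^ 12 *
            (∫⁻ w : ℝ, ENNReal.ofReal (Real.exp (-w ^ 2 / 4) *
              ‖∑' x : {x : K // x ∈ M i}, cc a i x *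
              pF (fun v => GG (ps σ pz (rv v)) (c a v + (v.mult : ℂ) * w))
                (yM K (M i) t (zs s z)) (om s θ) x‖)) ^ 12 := by
            refine Finset.sum_le_sum fun a ha => ?_
            rw [← mul_pow]
            exact pow_le_pow_left' (hIN' a ha) 12
        _ = (ENNReal.ofReal (B * X ^ σ * Real.exp (t * (1 / 2 + σ)))) ^ 12 *
            ∑ a ∈ J, (∫⁻ w : ℝ, ENNReal.ofReal (Real.exp (-w ^ 2 / 4) *
              ‖∑' x : {x : K // x ∈ M i}, cc a i x *
              pF (fun v => GG (ps σ pz (rv v)) (c a v + (v.mult : ℂ) * w))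
                (yM K (M i) t (zs s z)) (om s θ) x‖)) ^ 12 := by
            rw [Finset.mul_sum]
        _ ≤ (ENNReal.ofReal (B * X ^ σ * Real.exp (t * (1 / 2 + σ)))) ^ 12 *
            (ENNReal.ofReal F * I0) ^ 12 := mul_le_mul' le_rfl hmk
        _ = (ENNReal.ofReal (B * X ^ σ * Real.exp (t * (1 / 2 + σ)) * (F * I0.toReal))) ^ 12 := by
            rw [← mul_pow]
            congr 1
            rw [ENNReal.ofReal_mul hB1, ENNReal.ofReal_mul hF0, ENNReal.ofReal_toReal hI0fin.ne]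
        _ ≤ (ENNReal.ofReal (W * Real.exp (κ * t))) ^ 12 := by
            refine pow_le_pow_left' (ENNReal.ofReal_le_ofReal ?_) 12
            have hnum := num (n := n) (κ := κ) (X := X) (N := Nf K f) (T := T) (d := dK K)
              (a := b) (τ := t) hκ0 hκ12 hX hNf hT1 hd hX2 ht hb σ hσ
            calc B * X ^ σ * Real.exp (t * (1 / 2 + σ)) * (F * I0.toReal)
                = (B * Q * I0.toReal) * (X ^ σ * Real.exp (t * (1 / 2 + σ)) *
                  ((1 + b) ^ (1 / 2 : ℝ) * (1 + b / T ^ (1 / 2 : ℝ)) ^ (11 / 12 : ℝ))) := by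
                  rw [hF]
                  ring
              _ ≤ (B * Q * I0.toReal) * ((Real.exp n + 1) * 6 ^ n * dK K *
                  (2 * X ^ κ * Real.exp (κ * t))) :=
                  mul_le_mul_of_nonneg_left hnum (by positivity)
              _ = W * Real.exp (κ * t) := by
                  rw [hW]
                  ring
    · rw [indicator_of_notMem (show t ∉ Iic (n : ℝ) from ht)]
      refine le_of_eq ?_
      rw [zero_pow (by norm_num)]
      refine Finset.sum_eq_zero fun a ha => ?_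
      have h1 := (hMS K (M i) (c a) pz (cc a i) s (hM.1 i) pz_Pf ⟨E, hbd a ha i⟩).2
      have h2 : ∀ x : {x : K // x ∈ M i ∧ x ≠ 0}, cc a i x *
          v a (Ideal.absNorm (idl K (M i) x)) *
            pF (fun v => GG (pz (rv v)) (c a v)) (yM K (M i) t (zs s z)) (om s θ) x = 0 := by
        intro x
        have h3 : pF (fun v => GG (pz (rv v)) (c a v)) (yM K (M i) t (zs s z)) (om s θ) x.1 =
            0 := by
          by_contra h4
          have h5 := (h1 (zs s z) t θ x.1 x.2.1 h4).2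
          rw [hn] at h5
          exact ht h5
        rw [h3, mul_zero]
      simp only [h2, tsum_zero, norm_zero, ENNReal.ofReal_zero]
      exact zero_pow (by norm_num)
  -- the integral
  have hgm : Measurable ((Iic (n : ℝ)).indicator
      (fun τ => ENNReal.ofReal (W * Real.exp (κ * τ)))) := by
    refine Measurable.indicator ?_ measurableSet_Iic
    fun_prop
  obtain ⟨V, hV⟩ : ∃ V : ℝ, V = regulator K * ((W * (Real.exp (κ * n) / κ)) *
    (2 * Real.pi) ^ n) := ⟨_, rfl⟩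
  have hV0 : 0 ≤ V := by rw [hV]; positivity
  have hone : ∀ i : ι, ∑ a ∈ J, (∫⁻ u in Fd K ×ˢ (univ : Set ℝ) ×ˢ An K,
      ENNReal.ofReal ‖∑' x : {x : K // x ∈ M i ∧ x ≠ 0}, cc a i x *
        v a (Ideal.absNorm (idl K (M i) x)) *
          pF (fun v => GG (pz (rv v)) (c a v)) (yM K (M i) u.2.1 (zs s u.1))
            (om s u.2.2) x‖) ^ 12 ≤ (ENNReal.ofReal V) ^ 12 := by
    intro i
    refine (hJN _ A _ J _ _ (hpt i)).trans ?_
    refine pow_le_pow_left' ?_ 12
    refine (lint_prod hn hFD _ hgm).trans (le_of_eq ?_)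
    rw [lintegral_indicator measurableSet_Iic, lint_exp hW0 hκ0,
      ← ENNReal.ofReal_mul (by positivity), ← ENNReal.ofReal_mul hreg.le, hV]
  -- the sum over the classes
  let _ : MeasurableSpace ι := ⊤
  have _ : MeasurableSingletonClass ι := ⟨fun _ => trivial⟩
  have hcl := hJN ι A Measure.count J (fun a i => ∫⁻ u in Fd K ×ˢ (univ : Set ℝ) ×ˢ An K,
      ENNReal.ofReal ‖∑' x : {x : K // x ∈ M i ∧ x ≠ 0}, cc a i x *
        v a (Ideal.absNorm (idl K (M i) x)) *
          pF (fun v => GG (pz (rv v)) (c a v)) (yM K (M i) u.2.1 (zs s u.1))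
            (om s u.2.2) x‖) (fun _ => ENNReal.ofReal V) hone
  simp only [lintegral_fintype, Measure.count_singleton, mul_one] at hcl
  refine hcl.trans ?_
  rw [Finset.sum_const, nsmul_eq_mul, Finset.card_univ, (hRR K ι M hM).2.2,
    ← ENNReal.ofReal_natCast, ← ENNReal.ofReal_mul (Nat.cast_nonneg _),
    ← ENNReal.ofReal_pow (by positivity)]
  refine ENNReal.ofReal_le_ofReal ?_
  have hfin := fin (n := n) hε0 hε1 hκ0 hκ hB₀ hX hNf hT1 hd hD hX2
  calc ((classNumber K : ℝ) * V) ^ 12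
      = (C1 + C2) * ((Real.exp n + 1) * 6 ^ n * 2) ^ 12 * I0.toReal ^ 12 *
        (Real.exp (κ * n) / κ) ^ 12 * ((2 * Real.pi) ^ n) ^ 12 *
        (B * E * (classNumber K * regulator K)) ^ 12 *
        (Nf K f ^ 12 * (D * dK K) ^ B₀ * T ^ (2 + ε / 2) * dK K ^ 12 * (X ^ κ) ^ 12) := by
        rw [hV, hW]
        have : ∀ q : ℝ, q ^ 12 = (C1 + C2) * ((E * Nf K f) ^ 12 * (D * dK K) ^ B₀ *
            T ^ (2 + ε / 2)) → ((classNumber K : ℝ) * (regulator K * (B * q *
            ((Real.exp n + 1) * 6 ^ n * dK K * (2 * X ^ κ)) * I0.toReal *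
              (Real.exp (κ * n) / κ) * (2 * Real.pi) ^ n))) ^ 12 =
            (C1 + C2) * ((Real.exp n + 1) * 6 ^ n * 2) ^ 12 * I0.toReal ^ 12 *
            (Real.exp (κ * n) / κ) ^ 12 * ((2 * Real.pi) ^ n) ^ 12 *
            (B * E * (classNumber K * regulator K)) ^ 12 *
            (Nf K f ^ 12 * (D * dK K) ^ B₀ * T ^ (2 + ε / 2) * dK K ^ 12 * (X ^ κ) ^ 12) := by
          intro q hq
          simp only [mul_pow] at hq ⊢
          rw [hq]
          ring
        exact this Q hQ12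
    _ ≤ (C1 + C2) * ((Real.exp n + 1) * 6 ^ n * 2) ^ 12 * I0.toReal ^ 12 *
        (Real.exp (κ * n) / κ) ^ 12 * ((2 * Real.pi) ^ n) ^ 12 *
        (B * E * (classNumber K * regulator K)) ^ 12 *
        (6 ^ n * ((D * dK K * Nf K f) ^ (B₀ + 25) * T ^ (2 + ε))) := by
        refine mul_le_mul_of_nonneg_left hfin ?_
        positivity
    _ = _ := by ring

end Pool.Agent.H55.TM
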